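import Pool.Agent.Helper27.Har.Stmt
import Pool.Agent.Helper27.Har.P_main_thm

/-!
# Precompactness of bounded orbits for damped semilinear wave equations: a counterexample

There are a bounded domain `Ω ⊂ ℝ²` (the square `(0,π)²`), a nondecreasing globally Lipschitz
`g : ℝ → ℝ` (the truncation `g v = max (-1) (min v 1)`), a continuous periodic forcing
`f : ℝ → L²(Ω)` and a bounded solution of `∂ₜ²u - Δu + g(∂ₜu) = f(t)`, `u = 0` on `∂Ω`, in the
energy space `H¹₀(Ω) × L²(Ω)`, whose positive orbit is not precompact.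

The definitions used in the statement are in `Pool/Agent/Helper27/Har/Stmt.lean`.
-/

set_option autoImplicit false

open MeasureTheory Set

namespace Pool.Agent.Results.MP_4a11c8_an.NonCompactOrbit

open Haraux

/-- A bounded domain of the plane, a nondecreasing globally Lipschitz `g`, a continuous periodic
`f` with values in `L²(Ω)` and a bounded solution in the energy space whose positive orbit does
not have compact closure. -/
theorem result : ∃ Ω : Set (ℝ × ℝ), IsOpen Ω ∧ IsConnected Ω ∧ Bornology.IsBounded Ω ∧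
    ∃ g : ℝ → ℝ, Monotone g ∧ (∃ K : NNReal, LipschitzWith K g) ∧
    ∃ f : ℝ → St.L2 Ω, Continuous f ∧ (∃ τ : ℝ, 0 < τ ∧ ∀ t : ℝ, f (t + τ) = f t) ∧
    ∃ U : ℝ → St.State Ω, St.IsSolution Ω g f U ∧ St.IsBddSol Ω U ∧ ¬ St.PrecompactOrbit Ω U := by
  obtain ⟨Ω, h1, h2, h3, g, h4, h5, f, h6, h7, U, h8, h9, h10⟩ := main_thm
  refine ⟨Ω, h1, h2, h3, g, h4, h5, f, h6, h7, U, ?_, h9, h10⟩
  exact ⟨h8.cont, h8.mem, h8.deriv, h8.weak⟩

end Pool.Agent.Results.MP_4a11c8_an.NonCompactOrbit
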